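import Mathlib
import Pool.Agent.H735WS.Real

set_option autoImplicit false

namespace Pool.Agent.Results.MP_3b0be2_nt.AlmostEveryT

/-- For every `k ≥ 3` and almost every real `t`: for every `ε > 0` there is a constant `C` with
`|∑_{n ≤ N} e(t n^k + ξ n)| ≤ C N^(1 - 1/k + ε)` for all `N ≥ 1` and all real `ξ`. -/
theorem result :
    ∀ k : ℕ, 3 ≤ k → ∀ᵐ t : ℝ, ∀ ε : ℝ, 0 < ε → ∃ C : ℝ, 0 < C ∧
      ∀ N : ℕ, 1 ≤ N → ∀ ξ : ℝ,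
        ‖∑ n ∈ Finset.Icc 1 N, Complex.exp (2 * (Real.pi : ℂ) * Complex.I *
          (((t * (n : ℝ) ^ k + ξ * (n : ℝ)) : ℝ) : ℂ))‖
        ≤ C * (N : ℝ) ^ (1 - 1 / (k : ℝ) + ε) :=
  fun k hk => Pool.Agent.H735WS.I.ae_real k hk

end Pool.Agent.Results.MP_3b0be2_nt.AlmostEveryT
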